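import Pool.Agent.Y557.U.Stm

/-!
The number of points of bounded height of a projective space.
-/

set_option autoImplicit false

namespace Pool.Agent.Y51.U557

open NumberField IsDedekindDomain Finset Polynomial
open Pool.Agent.H691R3 Pool.Agent.TH876.Loc
open Pool.Agent.Y557.U
open Pool.Agent.Y557.NF (HB few_small)

theorem cnt_holds (K : Type) [Field K] [NumberField K] : S_CNT K := by
  classical
  intro ι _
  obtain ⟨C0, hC0, hfew⟩ := few_small K
  set m := Fintype.card ι with hm
  refine ⟨C0 ^ m + 1, 5 * m + 1, by positivity, by positivity, fun B hB => ?_⟩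
  set S : Set (Projectivization K (ι → K)) := {P | ∃ (y : ι → K) (hy : y ≠ 0),
      P = Projectivization.mk K y hy ∧ Height.logHeight y ≤ B} with hS
  have hne : ∀ a : K, (![a, 1] : Fin 2 → K) ≠ 0 := fun a h => one_ne_zero (congrFun h 1)
  obtain ⟨hfin, hcard⟩ := hfew B hB
  -- the possible coordinates
  set A : Set K := {a | Projectivization.mk K ![a, 1] (hne a) ∈ HB K B} with hA
  have hinj : Function.Injective fun a : K => Projectivization.mk K (![a, 1] : Fin 2 → K) (hne a) := by
    intro a b hab
    obtain ⟨c, hc⟩ := (Projectivization.mk_eq_mk_iff' K _ _ (hne a) (hne b)).1 hab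
    have h1 := congrFun hc 1
    have h0 := congrFun hc 0
    simp at h0 h1
    rw [← h0, h1, one_mul]
  have hAfin : A.Finite := hfin.preimage hinj.injOn
  have hAcard : (A.ncard : ℝ) ≤ C0 * Real.exp (5 * B) := by
    refine le_trans ?_ hcard
    exact_mod_cast Set.ncard_le_ncard_of_injOn
      (fun a : K => Projectivization.mk K (![a, 1] : Fin 2 → K) (hne a)) (fun a ha => ha)
      hinj.injOn hfin
  -- normalised coordinates
  have hrep : ∀ P : Projectivization K (ι → K), ∃ i, P.rep i ≠ 0 := by
    intro P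
    by_contra h
    push Not at h
    exact P.rep_nonzero (funext h)
  choose i0 hi0 using hrep
  set g : Projectivization K (ι → K) → (ι → K) := fun P => (P.rep (i0 P))⁻¹ • P.rep with hg
  have hg0 : ∀ P, g P ≠ 0 := fun P => smul_ne_zero (inv_ne_zero (hi0 P)) P.rep_nonzero
  have hgmk : ∀ P, Projectivization.mk K (g P) (hg0 P) = P := by
    intro P
    conv_rhs => rw [← P.mk_rep]
    rw [Projectivization.mk_eq_mk_iff']
    exact ⟨(P.rep (i0 P))⁻¹, rfl⟩
  have hginj : Function.Injective g := by
    intro P Q h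
    rw [← hgmk P, ← hgmk Q]
    congr 1
  set T : Finset (ι → K) := Fintype.piFinset fun _ : ι => hAfin.toFinset with hT
  have hmaps : ∀ P ∈ S, g P ∈ (T : Set (ι → K)) := by
    rintro P ⟨y, hy, rfl, hh⟩
    rw [Finset.mem_coe, hT, Fintype.mem_piFinset]
    intro j
    rw [Set.Finite.mem_toFinset]
    refine ⟨![g (Projectivization.mk K y hy) j, 1], hne _, rfl, ?_⟩
    set P := Projectivization.mk K y hy with hP
    obtain ⟨c, hc⟩ : ∃ c : K, c • y = P.rep := by
      have h1 := P.mk_rep
      rw [hP] at h1
      exact (Projectivization.mk_eq_mk_iff' K _ _ _ _).1 h1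
    have hc0 : c ≠ 0 := by
      rintro rfl
      rw [zero_smul] at hc
      exact P.rep_nonzero hc.symm
    have h2 : (![g P j, 1] : Fin 2 → K) = g P ∘ ![j, i0 P] := by
      funext k
      fin_cases k
      · rfl
      · simp [hg, hi0 P]
    rw [h2]
    refine (Height.logHeight_comp_le _ _).trans ?_
    rw [hg]
    simp only
    rw [Height.logHeight_smul_eq_logHeight _ (inv_ne_zero (hi0 P)), ← hc,
      Height.logHeight_smul_eq_logHeight _ hc0]
    exact hh
  refine ⟨Set.Finite.of_injOn hmaps hginj.injOn T.finite_toSet, ?_⟩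
  have h1 : S.ncard ≤ T.card := by
    rw [← Set.ncard_coe_finset]
    exact Set.ncard_le_ncard_of_injOn g hmaps hginj.injOn T.finite_toSet
  have h2 : T.card = A.ncard ^ m := by
    rw [hT, Fintype.card_piFinset, Finset.prod_const, Finset.card_univ,
      Set.ncard_eq_toFinset_card A hAfin]
  rw [h2] at h1
  have h3 : (S.ncard : ℝ) ≤ (A.ncard : ℝ) ^ m := by exact_mod_cast h1
  refine h3.trans ?_
  calc (A.ncard : ℝ) ^ m ≤ (C0 * Real.exp (5 * B)) ^ m := by gcongr
    _ = C0 ^ m * Real.exp (5 * m * B) := by
      rw [mul_pow, ← Real.exp_nat_mul]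
      congr 2
      ring
    _ ≤ (C0 ^ m + 1) * Real.exp ((5 * m + 1) * B) := by
      gcongr
      · linarith
      · linarith

end Pool.Agent.Y51.U557
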