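import Pool.Agent.Y557.U.Stm

/-!
The height of a zero of a polynomial.
-/

set_option autoImplicit false

namespace Pool.Agent.Y51.U557

open NumberField IsDedekindDomain Finset Polynomial
open Pool.Agent.H691R3 Pool.Agent.TH876.Loc
open Pool.Agent.TH876.KR (form localHeight)
open Pool.Agent.Y557.U

variable {K : Type} [Field K] [NumberField K]

lemma sup_fin2 (f : Fin 2 → ℝ) : (⨆ i, f i) = max (f 0) (f 1) := by
  refine le_antisymm (ciSup_le fun i => ?_) (max_le ?_ ?_)
  · fin_cases i
    · exact le_max_left _ _
    · exact le_max_right _ _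
  · exact le_ciSup (Set.finite_range f).bddAbove 0
  · exact le_ciSup (Set.finite_range f).bddAbove 1

omit [NumberField K] in
/-- the leading term at a zero -/
lemma lead_eq {G : K[X]} {r : K} (h : G.eval r = 0) :
    G.leadingCoeff * r ^ G.natDegree = - ∑ k ∈ range G.natDegree, G.coeff k * r ^ k := by
  rw [eval_eq_sum_range, sum_range_succ] at h
  rw [leadingCoeff]
  linear_combination h

theorem root_holds (K : Type) [Field K] [NumberField K] (hPF : S_PF K) : S_ROOT K := by
  intro N
  refine ⟨(Module.finrank ℚ K : ℝ) * Real.log (N + 1), fun G r hG hN hr => ?_⟩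
  set c : Fin (N + 1) → K := fun k => G.coeff k with hc
  set d := G.natDegree with hd
  have ha : G.leadingCoeff ≠ 0 := leadingCoeff_ne_zero.2 hG
  have hcoef : ∀ k, k ≤ d → ∃ j : Fin (N + 1), c j = G.coeff k := fun k hk =>
    ⟨⟨k, by omega⟩, rfl⟩
  have hc0 : c ≠ 0 := by
    intro h
    apply ha
    obtain ⟨j, hj⟩ := hcoef d le_rfl
    rw [leadingCoeff, ← hd, ← hj, h]
    rfl
  have hd1 : 1 ≤ d := by
    by_contra h
    have h0 : G.natDegree = 0 := by omega
    rw [eq_C_of_natDegree_eq_zero h0, eval_C] at hr
    apply ha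
    rw [leadingCoeff, h0, hr]
  have hy : (![r, 1] : Fin 2 → K) ≠ 0 := fun h => one_ne_zero (congrFun h 1)
  have hlead := lead_eq hr
  have h := hPF (Fin 2) (Fin (N + 1)) (Fin (N + 1)) ![r, 1] c c G.leadingCoeff 1 0 ((N : ℝ) + 1)
    hy hc0 hc0 ha (by linarith [(Nat.cast_nonneg N : (0 : ℝ) ≤ N)]) ?_ ?_ ∅
  · simp only [sum_empty, zero_add, Nat.cast_one, one_mul, Nat.cast_zero, zero_mul, add_zero] at h
    exact h
  · intro v
    rw [pow_one, pow_zero, mul_one]
    have hM : ∀ k, k ≤ d → fv v (G.coeff k) ≤ sn v c := by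
      intro k hk
      obtain ⟨j, hj⟩ := hcoef k hk
      rw [← hj]
      exact le_ciSup (f := fun i => fv v (c i)) (Set.finite_range _).bddAbove j
    have hM0 : 0 ≤ sn v c := ((fv v).nonneg _).trans (hM 0 (Nat.zero_le _))
    have hs : sn v (![r, 1] : Fin 2 → K) = max (fv v r) 1 := by
      unfold sn
      rw [sup_fin2]
      simp
    rw [hs]
    rcases le_total (fv v r) 1 with h1 | h1
    · rw [max_eq_right h1, mul_one]
      exact hM d le_rfl
    · rw [max_eq_left h1]
      have hr0 : 0 < fv v r := lt_of_lt_of_le one_pos h1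
      have h2 : fv v (G.leadingCoeff * r ^ d) ≤ sn v c * fv v r ^ (d - 1) := by
        rw [hlead, AbsoluteValue.map_neg]
        apply fv_sum_le v _ _ _ (by positivity)
        intro k hk
        have hk' := mem_range.1 hk
        rw [map_mul, map_pow]
        apply mul_le_mul (hM k hk'.le) _ (by positivity) hM0
        exact pow_le_pow_right₀ h1 (by omega)
      rw [map_mul, map_pow] at h2
      have h3 : fv v r ^ d = fv v r * fv v r ^ (d - 1) := by
        rw [← pow_succ']
        congr 1
        omega
      rw [h3, ← mul_assoc] at h2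
      exact le_of_mul_le_mul_right h2 (by positivity)
  · intro w
    rw [pow_one, pow_zero, mul_one]
    have hM : ∀ k, k ≤ d → w (G.coeff k) ≤ sw w c := by
      intro k hk
      obtain ⟨j, hj⟩ := hcoef k hk
      rw [← hj]
      exact le_ciSup (f := fun i => w (c i)) (Set.finite_range _).bddAbove j
    have hM0 : 0 ≤ sw w c := (apply_nonneg w _).trans (hM 0 (Nat.zero_le _))
    have hN0 : (0 : ℝ) ≤ N := Nat.cast_nonneg N
    have hs : sw w (![r, 1] : Fin 2 → K) = max (w r) 1 := by
      unfold sw
      rw [sup_fin2]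
      simp
    rw [hs]
    rcases le_total (w r) 1 with h1 | h1
    · rw [max_eq_right h1, mul_one]
      refine (hM d le_rfl).trans ?_
      nlinarith
    · rw [max_eq_left h1]
      have hr0 : 0 < w r := lt_of_lt_of_le one_pos h1
      have h2 : w (G.leadingCoeff * r ^ d) ≤ (N + 1) * sw w c * w r ^ (d - 1) := by
        rw [hlead]
        have h5 : w (- ∑ k ∈ range d, G.coeff k * r ^ k) =
            w.1 (∑ k ∈ range d, G.coeff k * r ^ k) := AbsoluteValue.map_neg w.1 _
        rw [h5]
        refine (AbsoluteValue.sum_le w.1 _ _).trans ?_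
        have h4 : ∑ k ∈ range d, w.1 (G.coeff k * r ^ k) ≤
            ∑ k ∈ range d, sw w c * w r ^ (d - 1) := by
          apply sum_le_sum
          intro k hk
          have hk' := mem_range.1 hk
          rw [map_mul, map_pow]
          apply mul_le_mul (hM k hk'.le) _ (pow_nonneg (apply_nonneg w r) _) hM0
          exact pow_le_pow_right₀ h1 (by omega)
        refine h4.trans ?_
        rw [sum_const, card_range, nsmul_eq_mul, mul_assoc]
        apply mul_le_mul_of_nonneg_right _ (by positivity)
        have : (d : ℝ) ≤ N := by exact_mod_cast hN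
        linarith
      rw [map_mul, map_pow] at h2
      have h3 : w r ^ d = w r * w r ^ (d - 1) := by
        rw [← pow_succ']
        congr 1
        omega
      rw [h3, ← mul_assoc] at h2
      exact le_of_mul_le_mul_right h2 (by positivity)

end Pool.Agent.Y51.U557
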